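import Pool.Agent.MWBN.Stmts
import Pool.Agent.Helper39_MWS.CbLem

/-!
# Row TEN of squad MWBN: the orders in the other blocks of an edge do not matter
-/

set_option autoImplicit false

namespace Pool.Agent.MWBN.H8

open Pool.Agent.Helper14_MV Pool.Agent.Helper2_MV Pool.Agent.MVO Pool.Agent.MWL Pool.Agent.MWS
open Pool.Agent.MWS.H39

theorem count_bl (p q c : ℕ) (e : Bool) :
    (bl p q e).count c = (List.replicate p 0).count c + (List.replicate q 1).count c := by
  unfold bl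
  cases e
  · rw [if_neg (by simp), List.count_append]
  · rw [if_pos rfl, List.count_append, Nat.add_comm]

theorem cb_count {a b : ℕ → ℕ} {i : ℕ} {l : List ℕ} (e e' : ℕ → Bool) (j c : ℕ) :
    (cb a b e i l j).count c = (cb a b e' i l j).count c := by
  by_cases hj : j = i
  · subst hj
    rw [cb_self, cb_self]
  · rw [cb_ne hj, cb_ne hj, count_bl, count_bl]

theorem cb_orders (hnfn : NfnStmt) {n : ℕ} {V : ℕ → (ℕ → ℕ) → (ℕ → ℕ) → ℕ → Prop} {β : FIC}
    (hV : VisOk V) (hC : ClVn n V β) {k : ℕ} {a b : ℕ → ℕ} {i : ℕ} (h : V k a b i) {l : List ℕ}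
    (hl : LL l) (e e' : ℕ → Bool) : RR β (asm k (cb a b e i l)) (asm k (cb a b e' i l)) := by
  obtain ⟨hi, hai, hbi⟩ := hV.mem _ _ _ _ h
  refine hnfn n V β β hV hC (fic_le_refl β) k _ _ (cb_ok hl hi) (cb_ok hl hi) ?_ ?_
  · intro j _ c
    refine ⟨?_, by rw [cb_count e e' j c]⟩
    rw [← List.count_pos_iff, ← List.count_pos_iff, cb_count e e' j c]
  · intro x y i' hxy h1 h2
    obtain ⟨rfl, -⟩ := vis_two hV h (cb_two hl)
      (fun j _ => ⟨cb_mem0 hl hai j, cb_mem1 hl hbi j⟩) hxy h1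
    exact absurd (by rw [cb_self, cb_self]) h2

/-- row TEN -/
theorem ten (hnfn : NfnStmt) : TenStmt := by
  intro n V β θ hV hC hθ k a b i h e hr e'
  have h1 := cb_orders hnfn hV hC h ll_a e' e
  have h2 := cb_orders hnfn hV hC h ll_b e e'
  exact θ.trans (hθ _ _ h1) (θ.trans hr (hθ _ _ h2))

end Pool.Agent.MWBN.H8
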